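import Pool.Agent.Run7.h569.SU.Leaf

set_option autoImplicit false

/-!
# Oriented trees in digraphs and tournaments with a large balanced subdigraph

A digraph is balanced if every vertex has the same out-degree and in-degree. The starting library
(`H537ES.digraph_tree`) contains: a balanced digraph with `N` vertices and more than `(k - 1) N` arcs
contains all oriented trees with `k` arcs; so Sumner's conjecture is true for regular tournaments, which
have an odd number of vertices, `2n - 1` at least for trees with `n` vertices. The conjecture itself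
concerns tournaments with the even number `2n - 2` of vertices, which are never balanced.

(1) Let `D` be a digraph with `N` vertices and `M` arcs, with all out- and in-degrees at most `Δ`, and let
`B` be a balanced subdigraph with `m` arcs. Let `T` be an oriented tree with `k` arcs and at least `ℓ`
leaves. If `(Δ + 1) ((k - 1) N - m) < (ℓ - 1) (M - m)`, then `D` contains `T`.

(2) In particular `D` contains all oriented trees with `k ≥ 1` arcs if it has a balanced subdigraph
with at least `(k - 1) N` arcs and different from `D`.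

(3) Sumner's conjecture is true for all `n` and all tournaments on `2n - 2` vertices in which some
subdigraph has all out-degrees and in-degrees equal to `n - 2`. (Such a tournament is as regular as
possible: all its out-degrees are `n - 2` or `n - 1`.) More generally (4), for the oriented trees with
`n` vertices and at least `ℓ` leaves, it is enough that there is a balanced subdigraph with `m` arcs,
where `(Δ + 1) ((n - 2) (2n - 2) - m) < (ℓ - 1) ((n - 1) (2n - 3) - m)` and `Δ` is the largest out- or
in-degree.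

Proof: the random prefixes of the starting file `Helper903.ES` with the degrees of `B` as weights; at the
leaves of the tree all the arcs of `D` are used, and the expectations are evaluated exactly; this gives
the additional term `(ℓ - 1) (M - m) / (Δ + 1)`.
-/

namespace Pool.Agent.Results.MP_f2ad72_co.BalancedSubdigraphs

/-- the out-degree of `v` -/
noncomputable def outDeg {V : Type} (D : V → V → Prop) (v : V) : ℕ := Nat.card {w : V // D v w}

/-- the in-degree of `v` -/
noncomputable def inDeg {V : Type} (D : V → V → Prop) (v : V) : ℕ := Nat.card {w : V // D w v}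

/-- the number of arcs -/
noncomputable def arcs {V : Type} [Fintype V] (D : V → V → Prop) : ℕ := ∑ v, outDeg D v

/-- every vertex has the same out-degree and in-degree -/
def Balanced {V : Type} (B : V → V → Prop) : Prop := ∀ v, outDeg B v = inDeg B v

/-- `A` is an oriented tree on the vertex set `W` -/
def OrientedTree {W : Type} (A : W → W → Prop) : Prop :=
  (∀ a b, A a b → ¬ A b a) ∧ (SimpleGraph.fromRel A).IsTree

/-- the number of leaves of the oriented tree `A`: the vertices with exactly one neighbour -/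
noncomputable def leaves {W : Type} (A : W → W → Prop) : ℕ :=
  Nat.card {w : W // Nat.card {x : W // (SimpleGraph.fromRel A).Adj w x} = 1}

/-- the digraph `A` embeds in the digraph `D` -/
def Embeds {W V : Type} (A : W → W → Prop) (D : V → V → Prop) : Prop :=
  ∃ f : W → V, Function.Injective f ∧ ∀ a b, A a b → D (f a) (f b)

/-- `D` is a tournament -/
def Tournament {V : Type} (D : V → V → Prop) : Prop :=
  (∀ v, ¬ D v v) ∧ ∀ u v, u ≠ v → (D u v ∧ ¬ D v u) ∨ (D v u ∧ ¬ D u v)

theorem dg_true {V : Type} [Fintype V] (D : V → V → Prop) (v : V) :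
    Run7.h569.SU.dg D true v = outDeg D v := by
  classical
  unfold Run7.h569.SU.dg outDeg
  rw [Nat.card_eq_fintype_card, Fintype.card_subtype]
  simp

theorem dg_false {V : Type} [Fintype V] (D : V → V → Prop) (v : V) :
    Run7.h569.SU.dg D false v = inDeg D v := by
  classical
  unfold Run7.h569.SU.dg inDeg
  rw [Nat.card_eq_fintype_card, Fintype.card_subtype]
  simp

theorem part1 {V W : Type} [Fintype V] [Fintype W] (D B : V → V → Prop) (hD : ∀ v, ¬ D v v)
    (hBD : ∀ u v, B u v → D u v) (hB : Balanced B) (A : W → W → Prop) (hA : OrientedTree A)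
    (k ℓ Δ : ℕ) (hW : Fintype.card W = k + 1) (hℓ : ℓ ≤ leaves A)
    (hΔ : ∀ v, outDeg D v ≤ Δ ∧ inDeg D v ≤ Δ)
    (h : ((Δ : ℤ) + 1) * (((k : ℤ) - 1) * Fintype.card V - arcs B) <
      ((ℓ : ℤ) - 1) * ((arcs D : ℤ) - arcs B)) : Embeds A D := by
  refine Run7.h569.SU.main D B hD hBD A hA.1 hA.2 (fun v => ?_) k ℓ Δ hW hℓ (fun b v => ?_) ?_
  · rw [dg_true, dg_false]
    exact hB v
  · cases b
    · rw [dg_false]; exact (hΔ v).2
    · rw [dg_true]; exact (hΔ v).1
  · simp only [dg_true]
    have e : ∀ Q : V → V → Prop, (arcs Q : ℤ) = ∑ v, (outDeg Q v : ℤ) := by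
      intro Q
      unfold arcs
      push_cast
      rfl
    rw [← e, ← e]
    exact h

/-- a tree with at least two vertices has at least two leaves -/
theorem two_leaves {W : Type} [Fintype W] (A : W → W → Prop) (hA : OrientedTree A)
    (hW : 2 ≤ Fintype.card W) : 2 ≤ leaves A := by
  classical
  have : Nontrivial W := Fintype.one_lt_card_iff_nontrivial.1 (by omega)
  obtain ⟨u, v, huv, hu, hv⟩ := hA.2.exists_ne_and_degree_eq_one
  have hc : ∀ w : W, Nat.card {x : W // (SimpleGraph.fromRel A).Adj w x} =
      (SimpleGraph.fromRel A).degree w := by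
    intro w
    rw [← SimpleGraph.card_neighborSet_eq_degree, Nat.card_eq_fintype_card]
    rfl
  unfold leaves
  rw [Nat.card_eq_fintype_card]
  have h1 : Nontrivial {w : W // Nat.card {x : W // (SimpleGraph.fromRel A).Adj w x} = 1} :=
    ⟨⟨u, (hc u).trans hu⟩, ⟨v, (hc v).trans hv⟩, fun h => huv (congrArg Subtype.val h)⟩
  exact Fintype.one_lt_card_iff_nontrivial.2 h1

theorem part2 {V W : Type} [Fintype V] [Fintype W] (D B : V → V → Prop) (hD : ∀ v, ¬ D v v)
    (hBD : ∀ u v, B u v → D u v) (hB : Balanced B) (hne : ∃ u v, D u v ∧ ¬ B u v)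
    (A : W → W → Prop) (hA : OrientedTree A)
    (k : ℕ) (hk : 1 ≤ k) (hW : Fintype.card W = k + 1)
    (h : (k - 1) * Fintype.card V ≤ arcs B) : Embeds A D := by
  classical
  have h2 := two_leaves A hA (by omega)
  have hdeg : ∀ v, outDeg D v ≤ Fintype.card V ∧ inDeg D v ≤ Fintype.card V := by
    intro v
    constructor
    · unfold outDeg
      rw [Nat.card_eq_fintype_card]
      exact Fintype.card_subtype_le _
    · unfold inDeg
      rw [Nat.card_eq_fintype_card]
      exact Fintype.card_subtype_le _
  have hle : ∀ v, outDeg B v ≤ outDeg D v := by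
    intro v
    unfold outDeg
    rw [Nat.card_eq_fintype_card, Nat.card_eq_fintype_card]
    exact Fintype.card_subtype_mono _ _ (fun w hw => hBD v w hw)
  have hlt : arcs B < arcs D := by
    obtain ⟨u, v, h1, h3⟩ := hne
    unfold arcs
    apply Finset.sum_lt_sum (fun w _ => hle w)
    refine ⟨u, Finset.mem_univ _, ?_⟩
    rw [← dg_true B u, ← dg_true D u]
    unfold Run7.h569.SU.dg
    apply Finset.card_lt_card
    rw [Finset.ssubset_iff_of_subset (fun w hw => by
      rw [Finset.mem_filter] at hw ⊢
      exact ⟨hw.1, by simpa using hBD _ _ (by simpa using hw.2)⟩)]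
    exact ⟨v, by simpa using h1, by simpa using h3⟩
  refine part1 D B hD hBD hB A hA k 2 (Fintype.card V) hW h2 hdeg ?_
  have h3 : ((k : ℤ) - 1) * Fintype.card V ≤ arcs B := by
    have : (((k - 1 : ℕ) : ℤ)) * Fintype.card V ≤ arcs B := by exact_mod_cast h
    rwa [Nat.cast_sub hk, Nat.cast_one] at this
  have h4 : (arcs B : ℤ) < arcs D := by exact_mod_cast hlt
  have h5 : ((Fintype.card V : ℤ) + 1) * (((k : ℤ) - 1) * Fintype.card V - arcs B) ≤ 0 :=
    mul_nonpos_of_nonneg_of_nonpos (by positivity) (by linarith)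
  have h6 : (((2 : ℕ) : ℤ) - 1) * ((arcs D : ℤ) - arcs B) = (arcs D : ℤ) - arcs B := by
    push_cast
    ring
  rw [h6]
  linarith

theorem tour_arcs {V : Type} [Fintype V] (D : V → V → Prop) (hD : Tournament D) (v : V) :
    outDeg D v + inDeg D v + 1 = Fintype.card V := by
  classical
  unfold outDeg inDeg
  rw [Nat.card_eq_fintype_card, Nat.card_eq_fintype_card, Fintype.card_subtype,
    Fintype.card_subtype]
  rw [← Finset.card_union_of_disjoint]
  · have : (Finset.univ.filter (fun w => D v w) ∪ Finset.univ.filter (fun w => D w v)) =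
        Finset.univ.erase v := by
      ext w
      simp only [Finset.mem_union, Finset.mem_filter, Finset.mem_univ, true_and, Finset.mem_erase,
        and_true]
      constructor
      · rintro (h | h) rfl
        · exact hD.1 _ h
        · exact hD.1 _ h
      · intro h
        rcases hD.2 v w (Ne.symm h) with h1 | h1
        · exact Or.inl h1.1
        · exact Or.inr h1.1
    rw [this, Finset.card_erase_of_mem (Finset.mem_univ _), Finset.card_univ]
    have : 0 < Fintype.card V := Fintype.card_pos_iff.2 ⟨v⟩
    omega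
  · rw [Finset.disjoint_left]
    intro w h1 h2
    rw [Finset.mem_filter] at h1 h2
    by_cases hw : v = w
    · rw [hw] at h1
      exact hD.1 _ h1.2
    · rcases hD.2 v w hw with h | h
      · exact h.2 h2.2
      · exact h.2 h1.2

theorem sum_in {V : Type} [Fintype V] (D : V → V → Prop) : ∑ v, inDeg D v = arcs D := by
  classical
  unfold arcs
  simp only [← dg_true, ← dg_false]
  unfold Run7.h569.SU.dg
  simp only [Finset.card_filter]
  rw [Finset.sum_comm]
  refine Finset.sum_congr rfl fun u _ => Finset.sum_congr rfl fun v _ => ?_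
  simp

theorem tour_count {V : Type} [Fintype V] (D : V → V → Prop) (hD : Tournament D) :
    2 * arcs D + Fintype.card V = Fintype.card V * Fintype.card V := by
  have h1 : ∑ v : V, (outDeg D v + inDeg D v + 1) = Fintype.card V * Fintype.card V := by
    rw [Finset.sum_congr rfl (fun v _ => tour_arcs D hD v), Finset.sum_const, Finset.card_univ,
      smul_eq_mul]
  rw [Finset.sum_add_distrib, Finset.sum_add_distrib, sum_in, Finset.sum_const, Finset.card_univ,
    smul_eq_mul, mul_one] at h1
  have h2 : ∑ v, outDeg D v = arcs D := rfl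
  rw [h2] at h1
  omega

/-- **Oriented trees in digraphs and tournaments with a large balanced subdigraph.** -/
theorem result :
    -- (1)
    (∀ (V W : Type) [Fintype V] [Fintype W] (D B : V → V → Prop), (∀ v, ¬ D v v) →
      (∀ u v, B u v → D u v) → Balanced B → ∀ A : W → W → Prop, OrientedTree A →
      ∀ k ℓ Δ : ℕ, Fintype.card W = k + 1 → ℓ ≤ leaves A → (∀ v, outDeg D v ≤ Δ ∧ inDeg D v ≤ Δ) →
      ((Δ : ℤ) + 1) * (((k : ℤ) - 1) * Fintype.card V - arcs B) <
        ((ℓ : ℤ) - 1) * ((arcs D : ℤ) - arcs B) → Embeds A D) ∧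
    -- (2)
    (∀ (V W : Type) [Fintype V] [Fintype W] (D B : V → V → Prop), (∀ v, ¬ D v v) →
      (∀ u v, B u v → D u v) → Balanced B → (∃ u v, D u v ∧ ¬ B u v) →
      ∀ A : W → W → Prop, OrientedTree A → ∀ k : ℕ, 1 ≤ k → Fintype.card W = k + 1 →
      (k - 1) * Fintype.card V ≤ arcs B → Embeds A D) ∧
    -- (3)
    (∀ n : ℕ, 2 ≤ n → ∀ (V W : Type) [Fintype V] [Fintype W], Fintype.card V = 2 * n - 2 →
      Fintype.card W = n → ∀ D B : V → V → Prop, Tournament D → (∀ u v, B u v → D u v) →
      (∀ v, outDeg B v = n - 2 ∧ inDeg B v = n - 2) →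
      ∀ A : W → W → Prop, OrientedTree A → Embeds A D) ∧
    -- (4)
    (∀ n : ℕ, 2 ≤ n → ∀ (V W : Type) [Fintype V] [Fintype W], Fintype.card V = 2 * n - 2 →
      Fintype.card W = n → ∀ D B : V → V → Prop, Tournament D → (∀ u v, B u v → D u v) →
      Balanced B → ∀ A : W → W → Prop, OrientedTree A → ∀ ℓ Δ : ℕ, ℓ ≤ leaves A →
      (∀ v, outDeg D v ≤ Δ ∧ inDeg D v ≤ Δ) →
      ((Δ : ℤ) + 1) * (((n : ℤ) - 2) * (2 * n - 2) - arcs B) <
        ((ℓ : ℤ) - 1) * (((n : ℤ) - 1) * (2 * n - 3) - arcs B) → Embeds A D) := by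
  refine ⟨fun V W _ _ D B hD hBD hB A hA k ℓ Δ hW hℓ hΔ h =>
    part1 D B hD hBD hB A hA k ℓ Δ hW hℓ hΔ h,
    fun V W _ _ D B hD hBD hB hne A hA k hk hW h => part2 D B hD hBD hB hne A hA k hk hW h,
    ?_, ?_⟩
  · intro n hn V W _ _ hV hW D B hD hBD hB A hA
    have hbal : Balanced B := fun v => (hB v).1.trans (hB v).2.symm
    have hcount := tour_count D hD
    have hBarcs : arcs B = (2 * n - 2) * (n - 2) := by
      unfold arcs
      rw [Finset.sum_congr rfl (fun v _ => (hB v).1), Finset.sum_const, Finset.card_univ, hV,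
        smul_eq_mul]
    have hne : ∃ u v, D u v ∧ ¬ B u v := by
      by_contra hcon
      push Not at hcon
      have hDB : D = B := by
        funext u v
        exact propext ⟨hcon u v, hBD u v⟩
      rw [hV, hDB, hBarcs] at hcount
      obtain ⟨j, rfl⟩ : ∃ j, n = j + 2 := ⟨n - 2, by omega⟩
      have e1 : 2 * (j + 2) - 2 = 2 * j + 2 := by omega
      have e2 : j + 2 - 2 = j := by omega
      rw [e1, e2] at hcount
      nlinarith
    refine part2 D B hD.1 hBD hbal hne A hA (n - 1) (by omega) (by omega) ?_
    rw [hBarcs, hV, mul_comm]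
    have : n - 1 - 1 = n - 2 := by omega
    rw [this]
  · intro n hn V W _ _ hV hW D B hD hBD hB A hA ℓ Δ hℓ hΔ h
    refine part1 D B hD.1 hBD hB A hA (n - 1) ℓ Δ (by omega) hℓ hΔ ?_
    have hcount := tour_count D hD
    rw [hV] at hcount
    obtain ⟨j, rfl⟩ : ∃ j, n = j + 2 := ⟨n - 2, by omega⟩
    have e1 : 2 * (j + 2) - 2 = 2 * j + 2 := by omega
    rw [e1] at hcount
    have hM : (arcs D : ℤ) = ((j : ℤ) + 1) * (2 * j + 1) := by
      have : (2 * (arcs D : ℤ)) + (2 * j + 2) = (2 * j + 2) * (2 * j + 2) := by exact_mod_cast hcount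
      linarith
    have e3 : ((j + 2 - 1 : ℕ) : ℤ) = j + 1 := by
      rw [show j + 2 - 1 = j + 1 by omega]
      push_cast
      ring
    rw [hV, e1, hM, e3]
    push_cast at h ⊢
    have g1 : ((Δ : ℤ) + 1) * (((j : ℤ) + 1 - 1) * (2 * j + 2) - arcs B) =
        ((Δ : ℤ) + 1) * (((j : ℤ) + 2 - 2) * (2 * ((j : ℤ) + 2) - 2) - arcs B) := by ring
    have g2 : ((ℓ : ℤ) - 1) * (((j : ℤ) + 1) * (2 * j + 1) - arcs B) =
        ((ℓ : ℤ) - 1) * (((j : ℤ) + 2 - 1) * (2 * ((j : ℤ) + 2) - 3) - arcs B) := by ring
    rw [g1, g2]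
    exact h

end Pool.Agent.Results.MP_f2ad72_co.BalancedSubdigraphs
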